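import Pool.Agent.Helper9.Kokoris.Final

set_option autoImplicit false

namespace Pool.Agent.Results.MP_b27eb5_al.SimpleKokorisIsField

open Pool.Agent.Helper9.Kokoris

universe u

/-- Every simple Kokoris algebra lying in a locally admissible variety is a field. Here `F` is any
field of characteristic different from `2`, and the variety is given by an arbitrary set `I` of
identities such that every anticommutative algebra satisfying them is locally nilpotent. -/
theorem result (F : Type u) [Field F] (h2 : (2 : F) ≠ 0)
    (I : Set (FreeNonUnitalNonAssocAlgebra F ℕ)) (hI : IsLocallyAdmissible F I)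
    (A : Type u) [NonUnitalNonAssocRing A] [Module F A] [IsScalarTower F A A]
    [SMulCommClass F A A] (hA : InVariety F I A) (hK : IsKokoris A)
    (hs : IsSimpleAlgebra F A) : IsFieldAlgebra A :=
  main h2 hI hA hK hs

end Pool.Agent.Results.MP_b27eb5_al.SimpleKokorisIsField
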